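import Pool.Agent.T9h16.QI.Spec2
import Pool.Agent.T9h41.QC.Bad

set_option autoImplicit false

/-!
# The upper terms of the second moment at the threshold, for all `k ≤ n ^ (1 / 3 - δ)`
-/

namespace Pool.Agent.T9h35.QI

open Finset
open Pool.Agent.T9h16.QL (meanCl)

/-- `m.choose i ≤ (e m / i) ^ i`. -/
lemma choose_le_exp (m : ℕ) {i : ℕ} (hi : 1 ≤ i) :
    (m.choose i : ℝ) ≤ (Real.exp 1 * m / i) ^ i := by
  have hi0 : (0 : ℝ) < i := by exact_mod_cast hi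
  have h1 : (m.choose i : ℝ) ≤ (m : ℝ) ^ i / (i.factorial : ℝ) := Nat.choose_le_pow_div i m
  have h2 := Real.pow_div_factorial_le_exp (i : ℝ) hi0.le i
  have h3 : Real.exp (i : ℝ) = (Real.exp 1) ^ i := by rw [← Real.exp_nat_mul, mul_one]
  have hf : (0 : ℝ) < (i.factorial : ℝ) := by exact_mod_cast Nat.factorial_pos i
  rw [h3, div_le_iff₀ hf] at h2
  rw [div_pow, mul_pow]
  refine h1.trans ?_
  rw [div_le_div_iff₀ hf (by positivity)]
  calc (m : ℝ) ^ i * (i : ℝ) ^ i ≤ (m : ℝ) ^ i * (Real.exp 1 ^ i * (i.factorial : ℝ)) := by gcongr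
    _ = _ := by ring

/-- The exponent. -/
lemma exponent {k i : ℕ} (hik : i ≤ k) :
    ((k.choose 2 - (k - i).choose 2 : ℕ) : ℝ) = i * (2 * k - i - 1) / 2 := by
  rw [Nat.cast_sub (Nat.choose_le_choose 2 (Nat.sub_le k i)), Nat.cast_choose_two,
    Nat.cast_choose_two, Nat.cast_sub hik]
  ring

/-- `x = p ^ ((k - 1) / 2)` is at most `2 k / n`. -/
lemma x_le {n k : ℕ} {p : ℝ} (hp : 0 < p) (hk : 3 ≤ k) (hn : k ≤ n) (hM : meanCl n k p ≤ 4) :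
    p ^ (((k : ℝ) - 1) / 2) ≤ 2 * k / n := by
  have hk0 : (0 : ℝ) < k := by exact_mod_cast (by omega : 0 < k)
  have hn0 : (0 : ℝ) < n := by exact_mod_cast (by omega : 0 < n)
  obtain ⟨x, hx⟩ : ∃ x : ℝ, x = p ^ (((k : ℝ) - 1) / 2) := ⟨_, rfl⟩
  have hx0 : 0 < x := by rw [hx]; positivity
  have hxk : x ^ k = p ^ (k.choose 2) := by
    rw [hx, ← Real.rpow_natCast (p ^ _) k, ← Real.rpow_mul hp.le, ← Real.rpow_natCast p,
      Nat.cast_choose_two]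
    congr 1
    ring
  have h1 : (n : ℝ) ^ k ≤ (n.choose k : ℝ) * (k : ℝ) ^ k := by
    have h := Pool.Agent.T9h41.QC.choose_le hn (le_refl k)
    rw [Nat.sub_self, Nat.choose_zero_right, one_mul] at h
    exact_mod_cast h
  have h2 : (x * n / k) ^ k ≤ 2 ^ k := by
    calc (x * n / k) ^ k = x ^ k * (n : ℝ) ^ k / (k : ℝ) ^ k := by rw [div_pow, mul_pow]
      _ ≤ x ^ k * ((n.choose k : ℝ) * (k : ℝ) ^ k) / (k : ℝ) ^ k := by gcongr
      _ = (n.choose k : ℝ) * x ^ k := by field_simp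
      _ ≤ 4 := by rw [hxk]; exact hM
      _ = 2 ^ 2 := by norm_num
      _ ≤ 2 ^ k := pow_le_pow_right₀ (by norm_num) (by omega)
  have h3 : x * n / k ≤ 2 :=
    (pow_le_pow_iff_left₀ (by positivity) (by norm_num) (by omega : k ≠ 0)).1 h2
  rw [← hx, le_div_iff₀ hn0]
  rw [div_le_iff₀ hk0] at h3
  exact h3

/-- `4 e ^ 2 ≤ 30`. -/
lemma four_e : 4 * Real.exp 1 ^ 2 ≤ 30 := by
  have h := Real.exp_one_lt_d9
  have h0 := Real.exp_pos 1
  nlinarith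

/-- **The upper terms.** -/
theorem upper {δ : ℝ} (hδ : 0 < δ) (hδ1 : δ ≤ 1 / 6) {n k i : ℕ} {p : ℝ} (hp : 0 < p)
    (hk : 3 ≤ k) (hkn : (k : ℝ) ≤ (n : ℝ) ^ (1 / 3 - δ)) (hM : meanCl n k p ≤ 4)
    (hi : 1 ≤ i) (hik : 2 * i ≤ k + 1) :
    (k.choose i : ℝ) * ((n - k).choose i : ℝ) * p ^ (k.choose 2 - (k - i).choose 2) ≤
      (30 / δ ^ 2 * (n : ℝ) ^ (-2 * δ)) ^ i := by
  have hk0 : (0 : ℝ) < k := by exact_mod_cast (by omega : 0 < k)
  have hk3 : (3 : ℝ) ≤ k := by exact_mod_cast hk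
  have hk1 : (0 : ℝ) < (k : ℝ) - 1 := by linarith
  have hi0 : (0 : ℝ) < i := by exact_mod_cast hi
  have hi1 : (1 : ℝ) ≤ i := by exact_mod_cast hi
  have hikR : 2 * (i : ℝ) ≤ k + 1 := by exact_mod_cast hik
  have hn0' : n ≠ 0 := by
    rintro rfl
    rw [Nat.cast_zero, Real.zero_rpow (by linarith)] at hkn
    linarith
  have hn0 : (0 : ℝ) < n := by exact_mod_cast Nat.pos_of_ne_zero hn0'
  have hn1 : (1 : ℝ) ≤ n := by exact_mod_cast Nat.pos_of_ne_zero hn0'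
  have hkn' : (k : ℝ) ≤ n := by
    refine hkn.trans ?_
    calc (n : ℝ) ^ (1 / 3 - δ) ≤ (n : ℝ) ^ (1 : ℝ) :=
          Real.rpow_le_rpow_of_exponent_le hn1 (by linarith)
      _ = n := Real.rpow_one _
  have hknN : k ≤ n := by exact_mod_cast hkn'
  have hx := x_le hp hk hknN hM
  obtain ⟨x, hxd⟩ : ∃ x : ℝ, x = p ^ (((k : ℝ) - 1) / 2) := ⟨_, rfl⟩
  rw [← hxd] at hx
  have hx0 : 0 < x := by rw [hxd]; positivity
  obtain ⟨τ, hτ⟩ : ∃ τ : ℝ, τ = ((i : ℝ) - 1) / (k - 1) := ⟨_, rfl⟩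
  have hτ0 : 0 ≤ τ := by rw [hτ]; exact div_nonneg (by linarith) hk1.le
  have hτ1 : τ ≤ 1 / 2 := by
    rw [hτ, div_le_iff₀ hk1]
    linarith
  have hτk : τ * ((k : ℝ) - 1) = i - 1 := by rw [hτ]; field_simp
  -- the power of `p`
  have hpE : p ^ (k.choose 2 - (k - i).choose 2) = (x ^ (2 - τ)) ^ i := by
    rw [← Real.rpow_natCast p, exponent (by omega : i ≤ k), ← Real.rpow_natCast _ i,
      ← Real.rpow_mul hx0.le, hxd, ← Real.rpow_mul hp.le]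
    congr 1
    have : ((k : ℝ) - 1) / 2 * ((2 - τ) * i) = (2 * (k - 1) - τ * ((k : ℝ) - 1)) * i / 2 := by ring
    rw [this, hτk]
    ring
  obtain ⟨e, he⟩ : ∃ e : ℝ, e = Real.exp 1 := ⟨_, rfl⟩
  have he0 : 0 < e := by rw [he]; exact Real.exp_pos 1
  have h4e : 4 * e ^ 2 ≤ 30 := by rw [he]; exact four_e
  have h1 : (k.choose i : ℝ) ≤ (e * k / i) ^ i := by rw [he]; exact choose_le_exp k hi
  have h2 : ((n - k).choose i : ℝ) ≤ (e * n / i) ^ i := by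
    refine (choose_le_exp (n - k) hi).trans ?_
    rw [← he]
    have : ((n - k : ℕ) : ℝ) ≤ n := by exact_mod_cast Nat.sub_le n k
    gcongr
  have h3 : (k.choose i : ℝ) * ((n - k).choose i : ℝ) * p ^ (k.choose 2 - (k - i).choose 2) ≤
      ((e * k / i) * (e * n / i) * x ^ (2 - τ)) ^ i := by
    rw [hpE, mul_pow, mul_pow]
    gcongr
  refine h3.trans ?_
  refine pow_le_pow_left₀ (by positivity) ?_ i
  -- the base
  have h5 : x ^ (2 - τ) ≤ (2 * k / n) ^ 2 * ((n : ℝ) / k) ^ τ := by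
    calc x ^ (2 - τ) ≤ (2 * k / n) ^ (2 - τ) :=
          Real.rpow_le_rpow hx0.le hx (by linarith)
      _ = (2 * k / n) ^ 2 * ((n : ℝ) / (2 * k)) ^ τ := by
          rw [Real.rpow_sub (by positivity), div_eq_mul_inv, ← Real.inv_rpow (by positivity),
            inv_div]
          congr 1
          exact Real.rpow_two _
      _ ≤ (2 * k / n) ^ 2 * ((n : ℝ) / k) ^ τ := by
          gcongr
          linarith
  have h6 : (e * k / i) * (e * n / i) * x ^ (2 - τ) ≤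
      4 * e ^ 2 * ((k : ℝ) ^ 3 / ((i : ℝ) ^ 2 * n) * ((n : ℝ) / k) ^ τ) := by
    calc (e * k / i) * (e * n / i) * x ^ (2 - τ)
        ≤ (e * k / i) * (e * n / i) * ((2 * k / n) ^ 2 * ((n : ℝ) / k) ^ τ) := by gcongr
      _ = _ := by
          field_simp
          ring
  refine h6.trans ?_
  have hδ2 : δ ^ 2 ≤ 1 := by nlinarith
  rcases le_or_gt τ δ with hτδ | hτδ
  · -- few
    have h7 : ((n : ℝ) / k) ^ τ ≤ (n : ℝ) ^ δ := by
      calc ((n : ℝ) / k) ^ τ ≤ (n : ℝ) ^ τ := by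
            refine Real.rpow_le_rpow (by positivity) ?_ hτ0
            exact div_le_self hn0.le (by linarith)
        _ ≤ (n : ℝ) ^ δ := Real.rpow_le_rpow_of_exponent_le hn1 hτδ
    have h8 : (k : ℝ) ^ 3 ≤ (n : ℝ) ^ (1 - 3 * δ) := by
      calc (k : ℝ) ^ 3 ≤ ((n : ℝ) ^ (1 / 3 - δ)) ^ 3 := by gcongr
        _ = (n : ℝ) ^ (1 - 3 * δ) := by
            rw [← Real.rpow_natCast, ← Real.rpow_mul hn0.le]
            congr 1
            push_cast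
            ring
    have h9 : (k : ℝ) ^ 3 / ((i : ℝ) ^ 2 * n) ≤ (n : ℝ) ^ (1 - 3 * δ) / n := by
      have h10 : (n : ℝ) ≤ (i : ℝ) ^ 2 * n := by
        have : (1 : ℝ) ≤ (i : ℝ) ^ 2 := one_le_pow₀ hi1
        nlinarith
      gcongr
    calc 4 * e ^ 2 * ((k : ℝ) ^ 3 / ((i : ℝ) ^ 2 * n) * ((n : ℝ) / k) ^ τ)
        ≤ 30 * ((n : ℝ) ^ (1 - 3 * δ) / n * (n : ℝ) ^ δ) := by gcongr
      _ = 30 * (n : ℝ) ^ (-2 * δ) := by
          congr 1
          have : (n : ℝ) ^ (1 - 3 * δ) / n = (n : ℝ) ^ (1 - 3 * δ - 1) := by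
            rw [Real.rpow_sub hn0 (1 - 3 * δ) 1, Real.rpow_one]
          rw [this, ← Real.rpow_add hn0]
          congr 1
          ring
      _ ≤ 30 / δ ^ 2 * (n : ℝ) ^ (-2 * δ) := by
          refine mul_le_mul_of_nonneg_right ?_ (by positivity)
          rw [le_div_iff₀ (by positivity)]
          linarith
  · -- many
    have hiδ : δ * k ≤ i := by
      have h7 : δ * ((k : ℝ) - 1) ≤ i - 1 := by
        rw [← hτk]
        gcongr
      nlinarith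
    have hnk : (1 : ℝ) ≤ (n : ℝ) / k := by rwa [one_le_div hk0]
    have h7 : ((n : ℝ) / k) ^ τ ≤ ((n : ℝ) / k) ^ (1 / 2 : ℝ) :=
      Real.rpow_le_rpow_of_exponent_le hnk hτ1
    have h8 : (k : ℝ) ^ 3 / ((i : ℝ) ^ 2 * n) ≤ (1 / δ ^ 2) * ((k : ℝ) / n) := by
      rw [div_le_iff₀ (by positivity)]
      have h9 : (δ * k) ^ 2 ≤ (i : ℝ) ^ 2 := by gcongr
      calc (k : ℝ) ^ 3 = 1 / δ ^ 2 * ((k : ℝ) / n) * ((δ * k) ^ 2 * n) := by
            field_simp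
        _ ≤ 1 / δ ^ 2 * ((k : ℝ) / n) * ((i : ℝ) ^ 2 * n) := by gcongr
    have h9 : (k : ℝ) / n * ((n : ℝ) / k) ^ (1 / 2 : ℝ) = ((k : ℝ) / n) ^ (1 / 2 : ℝ) := by
      have h10 : (n : ℝ) / k = ((k : ℝ) / n)⁻¹ := by rw [inv_div]
      rw [h10, Real.inv_rpow (by positivity), ← Real.rpow_neg (by positivity)]
      nth_rewrite 1 [← Real.rpow_one ((k : ℝ) / n)]
      rw [← Real.rpow_add (by positivity)]
      norm_num
    have h11 : (k : ℝ) / n ≤ (n : ℝ) ^ (-(2 / 3) : ℝ) := by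
      rw [div_le_iff₀ hn0]
      calc (k : ℝ) ≤ (n : ℝ) ^ (1 / 3 - δ) := hkn
        _ ≤ (n : ℝ) ^ (1 / 3 : ℝ) := Real.rpow_le_rpow_of_exponent_le hn1 (by linarith)
        _ = (n : ℝ) ^ (-(2 / 3) : ℝ) * n := by
            nth_rewrite 3 [← Real.rpow_one (n : ℝ)]
            rw [← Real.rpow_add hn0]
            norm_num
    have h12 : ((k : ℝ) / n) ^ (1 / 2 : ℝ) ≤ (n : ℝ) ^ (-2 * δ) := by
      calc ((k : ℝ) / n) ^ (1 / 2 : ℝ) ≤ ((n : ℝ) ^ (-(2 / 3) : ℝ)) ^ (1 / 2 : ℝ) :=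
            Real.rpow_le_rpow (by positivity) h11 (by norm_num)
        _ = (n : ℝ) ^ (-(1 / 3) : ℝ) := by
            rw [← Real.rpow_mul hn0.le]
            norm_num
        _ ≤ (n : ℝ) ^ (-2 * δ) := Real.rpow_le_rpow_of_exponent_le hn1 (by linarith)
    calc 4 * e ^ 2 * ((k : ℝ) ^ 3 / ((i : ℝ) ^ 2 * n) * ((n : ℝ) / k) ^ τ)
        ≤ 30 * ((1 / δ ^ 2) * ((k : ℝ) / n) * ((n : ℝ) / k) ^ (1 / 2 : ℝ)) := by gcongr
      _ = 30 / δ ^ 2 * ((k : ℝ) / n * ((n : ℝ) / k) ^ (1 / 2 : ℝ)) := by ring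
      _ = 30 / δ ^ 2 * ((k : ℝ) / n) ^ (1 / 2 : ℝ) := by rw [h9]
      _ ≤ _ := by gcongr

end Pool.Agent.T9h35.QI
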